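import Pool.Agent.U72.PIN.Main

/-!
# Computably dominated oracles
-/

set_option autoImplicit false

namespace Pool.Agent.U72.PIN

open Nat.Partrec (Code)
open Encodable
open Pool.Agent.Helper446.Defs Pool.Agent.Helper446.Oracle
open Pool.Agent.H639.LU Pool.Agent.R616.DI Pool.Agent.Y579.PP Pool.Agent.H869R3.FN
open Pool.Agent.N584.PI

/-- `X` is computably dominated (of hyperimmune-free degree): each function `f ≤_T X` (this is:
the graph of `f` is a set Turing reducible to `X`) is bounded by a computable function. -/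
def Dominated (X : ℕ → Bool) : Prop :=
  ∀ f : ℕ → ℕ, le (fun p => decide (f p.unpair.1 = p.unpair.2)) X →
    ∃ g : ℕ → ℕ, Computable g ∧ ∀ n, f n ≤ g n

theorem seg_prefix (X : ℕ → Bool) {s t : ℕ} (h : s ≤ t) : seg X s <+: seg X t := by
  rw [← OPR_take X h]
  exact List.take_prefix _ _

theorem tt_of_dom {X Y : ℕ → Bool} (hX : Dominated X) (h : le Y X) : TTle Y X := by
  obtain ⟨c, hc⟩ := (le_iff _ _).1 h
  have hex : ∀ n, ∃ t, hst c (seg X t) n = true := by
    intro n
    obtain ⟨s, hs⟩ := (hc n (Y n).toNat).2 rfl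
    exact N1.2.2 c X n s (Part.dom_iff_mem.2 ⟨_, hs⟩)
  have hmono : ∀ n s t, s ≤ t → hst c (seg X s) n = true → hst c (seg X t) n = true :=
    fun n s t hst' h' => N1.1 c _ _ n (seg_prefix X hst') h'
  obtain ⟨F, hF⟩ : ∃ F : ℕ → ℕ, ∀ n, F n = Nat.find (hex n) := ⟨_, fun _ => rfl⟩
  have hgr : le (fun p => decide (F p.unpair.1 = p.unpair.2)) X := by
    obtain ⟨c', hc'⟩ := exists_fun
      (δ := fun q : ℕ × List Bool => hst c q.2 q.1.unpair.1 &&
        (q.1.unpair.2 == 0 || !(hst c (q.2.take (q.1.unpair.2 - 1)) q.1.unpair.1)))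
      (u := fun p => p.unpair.2) (by
        have h1 : Computable (fun q : ℕ × List Bool => q.1.unpair.1) :=
          Computable.fst.comp (Computable.unpair.comp Computable.fst)
        have h2 : Computable (fun q : ℕ × List Bool => q.1.unpair.2) :=
          Computable.snd.comp (Computable.unpair.comp Computable.fst)
        have h3 : Computable (fun q : ℕ × List Bool => hst c q.2 q.1.unpair.1) :=
          C1.2.2.1.comp (g := fun q : ℕ × List Bool => (c, q.2, q.1.unpair.1))
            ((Computable.const c).pair (Computable.snd.pair h1))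
        have h4 : Computable (fun q : ℕ × List Bool => q.2.take (q.1.unpair.2 - 1)) :=
          CMP_take Computable.snd (Primrec.nat_sub.to_comp.comp h2 (Computable.const 1))
        have h5 : Computable (fun q : ℕ × List Bool =>
            hst c (q.2.take (q.1.unpair.2 - 1)) q.1.unpair.1) :=
          C1.2.2.1.comp (g := fun q : ℕ × List Bool =>
            (c, q.2.take (q.1.unpair.2 - 1), q.1.unpair.1))
            ((Computable.const c).pair (h4.pair h1))
        have h6 : Computable (fun q : ℕ × List Bool => q.1.unpair.2 == 0) :=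
          Primrec.beq.to_comp.comp h2 (Computable.const 0)
        exact Primrec.and.to_comp.comp h3 (Primrec.or.to_comp.comp h6
          (Primrec.not.to_comp.comp h5)))
      (Computable.snd.comp Computable.unpair)
    refine (le_iff _ _).2 ⟨c', (hc' X _).2 fun p => ?_⟩
    rw [Bool.eq_iff_iff, decide_eq_true_iff]
    simp only [Bool.and_eq_true, Bool.or_eq_true, beq_iff_eq, Bool.not_eq_true']
    obtain ⟨n, hn⟩ : ∃ n, n = p.unpair.1 := ⟨_, rfl⟩
    obtain ⟨m, hm⟩ : ∃ m, m = p.unpair.2 := ⟨_, rfl⟩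
    rw [← hn, ← hm, hF, Nat.find_eq_iff]
    rw [OPR_take X (Nat.sub_le m 1)]
    refine and_congr_right fun h1 => ⟨fun h2 => ?_, fun h2 k hk h3 => ?_⟩
    · rcases Nat.eq_zero_or_pos m with h0 | h0
      · exact Or.inl h0
      · right
        have := h2 (m - 1) (by omega)
        simpa using this
    · rcases h2 with h2 | h2
      · omega
      · have := hmono n k (m - 1) (by omega) h3
        rw [h2] at this
        exact absurd this (by simp)
  obtain ⟨g, hg, hFg⟩ := hX F hgr
  refine ⟨fun q => (nxt c q.2 q.1).getD false, g, ?_, hg, fun n => ?_⟩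
  · have h1 : Computable (fun q : ℕ × List Bool => nxt c q.2 q.1) :=
      C1.2.1.comp (g := fun q : ℕ × List Bool => (c, q.2, q.1))
        ((Computable.const c).pair (Computable.snd.pair Computable.fst))
    exact Computable.option_getD h1 (Computable.const false)
  · have h1 : hst c (seg X (g n)) n = true := by
      refine hmono n (F n) (g n) (hFg n) ?_
      rw [hF]
      exact Nat.find_spec (hex n)
    obtain ⟨v, hv⟩ := Option.isSome_iff_exists.1 h1
    obtain ⟨s, -, hs⟩ := N1.2.1 c X n (g n) v hv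
    have h2 := (hc n v).1 ⟨s, hs⟩
    show Y n = (nxt c (seg X (g n)) n).getD false
    unfold nxt
    rw [hv, h2]
    cases Y n <;> rfl

theorem dom_mono {X Y : ℕ → Bool} (hX : Dominated X) (h : le Y X) : Dominated Y :=
  fun f hf => hX f (le_trans' hf h)

theorem part3 {s : Code} {z₀ : ℕ → Bool}
    (h : ∀ X Y, le z₀ X → TTle X Y → TTle Y X → le (ch (W s Y)) (ch (W s X)))
    (X Y : ℕ → Bool) (h0 : le z₀ X) (hd : Dominated X) (h1 : le X Y) (h2 : le Y X) :
    le (ch (W s Y)) (ch (W s X)) :=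
  h X Y h0 (tt_of_dom (dom_mono hd h2) h1) (tt_of_dom hd h2)

theorem tt_inv {τ : ℕ → ℕ} (h1 : Computable τ) (h2 : Function.Involutive τ) (X : ℕ → Bool) :
    TTle (X ∘ τ) X ∧ TTle X (X ∘ τ) := by
  have key : ∀ Z : ℕ → Bool, TTle (Z ∘ τ) Z := fun Z =>
    ⟨fun q => q.2.getD (τ q.1) false, fun n => τ n + 1,
      ((Primrec.list_getD false).to_comp).comp Computable.snd (h1.comp Computable.fst),
      Computable.succ.comp h1, fun n => (OPR_get Z (Nat.lt_succ_self _)).symm⟩
  refine ⟨key X, ?_⟩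
  have h3 := key (X ∘ τ)
  have e : (X ∘ τ) ∘ τ = X := by
    funext n
    simp [h2 n]
  rwa [e] at h3

/-- Invariance under computable involutions is as good as truth-table invariance. -/
theorem part_iff (z₀ : ℕ → Bool) :
    (∃ r : Code, Post r z₀ ∧ ∀ τ : ℕ → ℕ, Computable τ → Function.Involutive τ →
      ∀ X, le z₀ X → le (ch (W r (X ∘ τ))) (ch (W r X))) ↔
    ∃ s : Code, Post s z₀ ∧
      ∀ X Y, le z₀ X → TTle X Y → TTle Y X → le (ch (W s Y)) (ch (W s X)) := by
  constructor
  · rintro ⟨r, hr, h⟩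
    exact part2 r z₀ hr h
  · rintro ⟨s, hs, h⟩
    exact ⟨s, hs, fun τ h1 h2 X hX => h X (X ∘ τ) hX (tt_inv h1 h2 X).2 (tt_inv h1 h2 X).1⟩

/-- The degree invariant operation on the jumps. -/
theorem part4 {s : Code} {z₀ : ℕ → Bool} (hs : Post s z₀)
    (h : ∀ X Y, le z₀ X → TTle X Y → TTle Y X → le (ch (W s Y)) (ch (W s X))) :
    (∀ Z, le z₀ Z → le (ch (J Z)) (ch (W s (ch (J Z)))) ∧
      ¬ le (ch (W s (ch (J Z)))) (ch (J Z)) ∧
      ¬ le (ch (J (ch (J Z)))) (ch (W s (ch (J Z))))) ∧
    ∀ Z Z', le z₀ Z → le Z Z' → le Z' Z →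
      le (ch (W s (ch (J Z')))) (ch (W s (ch (J Z)))) :=
  ⟨fun Z hZ => hs _ (le_trans' hZ (le_jump' Z)), fun Z _ hZ h1 h2 =>
    h _ _ (le_trans' hZ (le_jump' Z)) (tt_jump h1) (tt_jump h2)⟩

end Pool.Agent.U72.PIN
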