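import Mathlib

/-!
# Chains of involutions

The positions of the oracle are the pairs `(s, l)`, coded by `Nat.pair s l`; `l` is the label. For a
function `f` there are two involutions `R1 f`, `R2 f` of the positions; the label of
`R2 f (R1 f p)` is the label of `p` if `s` is even, and is `f` of the label of `p` if `s` is odd.
-/

set_option autoImplicit false

namespace Pool.Agent.U72.PIN

/-- the first involution -/
def R1 (f : ℕ → ℕ) (p : ℕ) : ℕ :=
  bif p.unpair.1 % 2 == 1 then p else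
    bif p.unpair.1 % 4 == 2 then
      bif f (p.unpair.1 / 4).unpair.1.unpair.2 == p.unpair.2 then
        Nat.pair (4 * Nat.pair (p.unpair.1 / 4).unpair.1.unpair.1 (p.unpair.1 / 4).unpair.2)
          (p.unpair.1 / 4).unpair.1.unpair.2
      else p
    else Nat.pair (4 * Nat.pair (Nat.pair (p.unpair.1 / 4).unpair.1 p.unpair.2)
      (p.unpair.1 / 4).unpair.2 + 2) (f p.unpair.2)

/-- the second involution -/
def R2 (f : ℕ → ℕ) (p : ℕ) : ℕ :=
  bif p.unpair.1 % 2 == 1 then
    Nat.pair (4 * Nat.pair (Nat.pair (p.unpair.1 / 2) p.unpair.2) 0 + 2) (f p.unpair.2) else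
    bif p.unpair.1 % 4 == 2 then
      bif f (p.unpair.1 / 4).unpair.1.unpair.2 == p.unpair.2 then
        bif (p.unpair.1 / 4).unpair.2 == 0 then
          Nat.pair (2 * (p.unpair.1 / 4).unpair.1.unpair.1 + 1) (p.unpair.1 / 4).unpair.1.unpair.2
        else
          Nat.pair (4 * Nat.pair (p.unpair.1 / 4).unpair.1.unpair.1
            ((p.unpair.1 / 4).unpair.2 - 1)) (p.unpair.1 / 4).unpair.1.unpair.2
      else p
    else Nat.pair (4 * Nat.pair (Nat.pair (p.unpair.1 / 4).unpair.1 p.unpair.2)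
      ((p.unpair.1 / 4).unpair.2 + 1) + 2) (f p.unpair.2)

/-- the exchange of the two sides -/
def sg (p : ℕ) : ℕ :=
  bif p.unpair.1 % 2 == 1 then Nat.pair (p.unpair.1 - 1) p.unpair.2
  else Nat.pair (p.unpair.1 + 1) p.unpair.2

theorem view (p : ℕ) : (∃ c l, p = Nat.pair (2 * c + 1) l) ∨
    (∃ c i l, p = Nat.pair (4 * Nat.pair c i) l) ∨
    ∃ c k i l, p = Nat.pair (4 * Nat.pair (Nat.pair c k) i + 2) l := by
  obtain ⟨s, hs⟩ : ∃ s, s = p.unpair.1 := ⟨_, rfl⟩
  have hp : p = Nat.pair s p.unpair.2 := by rw [hs, Nat.pair_unpair]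
  have h : s % 4 = 0 ∨ s % 4 = 1 ∨ s % 4 = 2 ∨ s % 4 = 3 := by omega
  rcases h with h | h | h | h
  · refine Or.inr (Or.inl ⟨(s / 4).unpair.1, (s / 4).unpair.2, p.unpair.2, ?_⟩)
    rw [Nat.pair_unpair]
    have : 4 * (s / 4) = s := by omega
    rw [this]
    exact hp
  · refine Or.inl ⟨s / 2, p.unpair.2, ?_⟩
    have : 2 * (s / 2) + 1 = s := by omega
    rw [this]
    exact hp
  · refine Or.inr (Or.inr ⟨(s / 4).unpair.1.unpair.1, (s / 4).unpair.1.unpair.2,
      (s / 4).unpair.2, p.unpair.2, ?_⟩)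
    rw [Nat.pair_unpair, Nat.pair_unpair]
    have : 4 * (s / 4) + 2 = s := by omega
    rw [this]
    exact hp
  · refine Or.inl ⟨s / 2, p.unpair.2, ?_⟩
    have : 2 * (s / 2) + 1 = s := by omega
    rw [this]
    exact hp

variable (f : ℕ → ℕ)

theorem a1 (c : ℕ) : (2 * c + 1) % 2 = 1 := by omega
theorem a2 (c : ℕ) : (2 * c + 1) / 2 = c := by omega
theorem a3 (c : ℕ) : (4 * c) % 2 = 0 := by omega
theorem a4 (c : ℕ) : (4 * c) % 4 = 0 := by omega
theorem a5 (c : ℕ) : (4 * c) / 4 = c := by omega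
theorem a6 (c : ℕ) : (4 * c + 2) % 2 = 0 := by omega
theorem a7 (c : ℕ) : (4 * c + 2) % 4 = 2 := by omega
theorem a8 (c : ℕ) : (4 * c + 2) / 4 = c := by omega

theorem R1_a (c l : ℕ) : R1 f (Nat.pair (2 * c + 1) l) = Nat.pair (2 * c + 1) l := by
  simp [R1, a1]

theorem R1_b (c i l : ℕ) : R1 f (Nat.pair (4 * Nat.pair c i) l) =
    Nat.pair (4 * Nat.pair (Nat.pair c l) i + 2) (f l) := by
  simp [R1, a3, a4, a5]

theorem R1_d (c k i l : ℕ) (h : f k = l) :
    R1 f (Nat.pair (4 * Nat.pair (Nat.pair c k) i + 2) l) = Nat.pair (4 * Nat.pair c i) k := by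
  simp [R1, a6, a7, a8, h]

theorem R1_e (c k i l : ℕ) (h : f k ≠ l) :
    R1 f (Nat.pair (4 * Nat.pair (Nat.pair c k) i + 2) l) =
      Nat.pair (4 * Nat.pair (Nat.pair c k) i + 2) l := by
  have h' : (f k == l) = false := by simpa using h
  simp [R1, a6, a7, a8, h']

theorem R2_a (c l : ℕ) : R2 f (Nat.pair (2 * c + 1) l) =
    Nat.pair (4 * Nat.pair (Nat.pair c l) 0 + 2) (f l) := by
  simp [R2, a1, a2]

theorem R2_b (c i l : ℕ) : R2 f (Nat.pair (4 * Nat.pair c i) l) =
    Nat.pair (4 * Nat.pair (Nat.pair c l) (i + 1) + 2) (f l) := by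
  simp [R2, a3, a4, a5]

theorem R2_d (c k l : ℕ) (h : f k = l) :
    R2 f (Nat.pair (4 * Nat.pair (Nat.pair c k) 0 + 2) l) = Nat.pair (2 * c + 1) k := by
  simp [R2, a6, a7, a8, h]

theorem R2_d' (c k i l : ℕ) (h : f k = l) :
    R2 f (Nat.pair (4 * Nat.pair (Nat.pair c k) (i + 1) + 2) l) =
      Nat.pair (4 * Nat.pair c i) k := by
  simp [R2, a6, a7, a8, h]

theorem R2_e (c k i l : ℕ) (h : f k ≠ l) :
    R2 f (Nat.pair (4 * Nat.pair (Nat.pair c k) i + 2) l) =
      Nat.pair (4 * Nat.pair (Nat.pair c k) i + 2) l := by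
  have h' : (f k == l) = false := by simpa using h
  simp [R2, a6, a7, a8, h']

theorem R1_inv : Function.Involutive (R1 f) := by
  intro p
  rcases view p with ⟨c, l, rfl⟩ | ⟨c, i, l, rfl⟩ | ⟨c, k, i, l, rfl⟩
  · rw [R1_a, R1_a]
  · rw [R1_b, R1_d f c l i _ rfl]
  · by_cases h : f k = l
    · rw [R1_d f c k i l h, R1_b, h]
    · rw [R1_e f c k i l h, R1_e f c k i l h]

theorem R2_inv : Function.Involutive (R2 f) := by
  intro p
  rcases view p with ⟨c, l, rfl⟩ | ⟨c, i, l, rfl⟩ | ⟨c, k, i, l, rfl⟩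
  · rw [R2_a, R2_d f c l _ rfl]
  · rw [R2_b, R2_d' f c l i _ rfl]
  · by_cases h : f k = l
    · cases i with
      | zero => rw [R2_d f c k l h, R2_a, h]
      | succ i => rw [R2_d' f c k i l h, R2_b, h]
    · rw [R2_e f c k i l h, R2_e f c k i l h]

theorem lab_RR (p : ℕ) : (R2 f (R1 f p)).unpair.2 =
    if p.unpair.1 % 2 = 1 then f p.unpair.2 else p.unpair.2 := by
  rcases view p with ⟨c, l, rfl⟩ | ⟨c, i, l, rfl⟩ | ⟨c, k, i, l, rfl⟩
  · rw [R1_a, R2_a]
    simp [a1]
  · rw [R1_b]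
    cases i with
    | zero =>
      rw [R2_d f c l _ rfl]
      simp [a3]
    | succ i =>
      rw [R2_d' f c l i _ rfl]
      simp [a3]
  · by_cases h : f k = l
    · rw [R1_d f c k i l h, R2_b]
      simp [a6, h]
    · rw [R1_e f c k i l h, R2_e f c k i l h]
      simp [a6]

theorem sg_inv : Function.Involutive sg := by
  intro p
  obtain ⟨s, l, rfl⟩ : ∃ s l, p = Nat.pair s l := ⟨p.unpair.1, p.unpair.2, by simp⟩
  rcases Nat.mod_two_eq_zero_or_one s with h | h
  · have h1 : sg (Nat.pair s l) = Nat.pair (s + 1) l := by simp [sg, h]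
    have h2 : (s + 1) % 2 = 1 := by omega
    rw [h1]
    simp [sg, h2]
  · have h1 : sg (Nat.pair s l) = Nat.pair (s - 1) l := by simp [sg, h]
    have h2 : (s - 1) % 2 = 0 := by omega
    have h3 : s - 1 + 1 = s := by omega
    rw [h1]
    simp [sg, h2, h3]

theorem sg_lab (p : ℕ) : (sg p).unpair.2 = p.unpair.2 := by
  unfold sg
  cases (p.unpair.1 % 2 == 1) <;> simp

theorem sg_side (p : ℕ) : (sg p).unpair.1 % 2 = 1 ↔ ¬ p.unpair.1 % 2 = 1 := by
  unfold sg
  by_cases h : p.unpair.1 % 2 = 1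
  · simp [h]
    omega
  · have h' : (p.unpair.1 % 2 == 1) = false := by simpa using h
    rw [h']
    simp
    omega

/-- the label of the other side -/
theorem lab_SRRS (p : ℕ) : (sg (R2 f (R1 f (sg p)))).unpair.2 =
    if p.unpair.1 % 2 = 1 then p.unpair.2 else f p.unpair.2 := by
  rw [sg_lab, lab_RR, sg_lab]
  by_cases h : p.unpair.1 % 2 = 1
  · rw [if_neg (fun h' => (sg_side p).1 h' h), if_pos h]
  · rw [if_pos ((sg_side p).2 h), if_neg h]

theorem c_sg : Computable sg := by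
  have hs : Primrec (fun p : ℕ => p.unpair.1) := Primrec.fst.comp Primrec.unpair
  have hl : Primrec (fun p : ℕ => p.unpair.2) := Primrec.snd.comp Primrec.unpair
  have h : Primrec sg := Primrec.cond
    (Primrec.beq.comp (Primrec.nat_mod.comp hs (Primrec.const 2)) (Primrec.const 1))
    (Primrec₂.natPair.comp (Primrec.nat_sub.comp hs (Primrec.const 1)) hl)
    (Primrec₂.natPair.comp (Primrec.nat_add.comp hs (Primrec.const 1)) hl)
  exact h.to_comp

theorem c_R1 {f : ℕ → ℕ} (hf : Computable f) : Computable (R1 f) := by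
  have hs : Primrec (fun p : ℕ => p.unpair.1) := Primrec.fst.comp Primrec.unpair
  have hl : Primrec (fun p : ℕ => p.unpair.2) := Primrec.snd.comp Primrec.unpair
  have hw : Primrec (fun p : ℕ => p.unpair.1 / 4) := Primrec.nat_div.comp hs (Primrec.const 4)
  have hw1 : Primrec (fun p : ℕ => (p.unpair.1 / 4).unpair.1) :=
    Primrec.fst.comp (Primrec.unpair.comp hw)
  have hw2 : Primrec (fun p : ℕ => (p.unpair.1 / 4).unpair.2) :=
    Primrec.snd.comp (Primrec.unpair.comp hw)
  have hw11 : Primrec (fun p : ℕ => (p.unpair.1 / 4).unpair.1.unpair.1) :=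
    Primrec.fst.comp (Primrec.unpair.comp hw1)
  have hw12 : Primrec (fun p : ℕ => (p.unpair.1 / 4).unpair.1.unpair.2) :=
    Primrec.snd.comp (Primrec.unpair.comp hw1)
  have t1 : Computable (fun p : ℕ => p.unpair.1 % 2 == 1) :=
    (Primrec.beq.comp (Primrec.nat_mod.comp hs (Primrec.const 2)) (Primrec.const 1)).to_comp
  have t2 : Computable (fun p : ℕ => p.unpair.1 % 4 == 2) :=
    (Primrec.beq.comp (Primrec.nat_mod.comp hs (Primrec.const 4)) (Primrec.const 2)).to_comp
  have t3 : Computable (fun p : ℕ => f (p.unpair.1 / 4).unpair.1.unpair.2 == p.unpair.2) :=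
    Primrec.beq.to_comp.comp (hf.comp hw12.to_comp) hl.to_comp
  refine Computable.cond t1 Computable.id (Computable.cond t2 (Computable.cond t3 ?_ Computable.id)
    ?_)
  · exact (Primrec₂.natPair.comp (Primrec.nat_mul.comp (Primrec.const 4)
      (Primrec₂.natPair.comp hw11 hw2)) hw12).to_comp
  · exact Primrec₂.natPair.to_comp.comp (Primrec.nat_add.comp (Primrec.nat_mul.comp
      (Primrec.const 4) (Primrec₂.natPair.comp (Primrec₂.natPair.comp hw1 hl) hw2))
      (Primrec.const 2)).to_comp (hf.comp hl.to_comp)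

theorem c_R2 {f : ℕ → ℕ} (hf : Computable f) : Computable (R2 f) := by
  have hs : Primrec (fun p : ℕ => p.unpair.1) := Primrec.fst.comp Primrec.unpair
  have hl : Primrec (fun p : ℕ => p.unpair.2) := Primrec.snd.comp Primrec.unpair
  have hh : Primrec (fun p : ℕ => p.unpair.1 / 2) := Primrec.nat_div.comp hs (Primrec.const 2)
  have hw : Primrec (fun p : ℕ => p.unpair.1 / 4) := Primrec.nat_div.comp hs (Primrec.const 4)
  have hw1 : Primrec (fun p : ℕ => (p.unpair.1 / 4).unpair.1) :=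
    Primrec.fst.comp (Primrec.unpair.comp hw)
  have hw2 : Primrec (fun p : ℕ => (p.unpair.1 / 4).unpair.2) :=
    Primrec.snd.comp (Primrec.unpair.comp hw)
  have hw11 : Primrec (fun p : ℕ => (p.unpair.1 / 4).unpair.1.unpair.1) :=
    Primrec.fst.comp (Primrec.unpair.comp hw1)
  have hw12 : Primrec (fun p : ℕ => (p.unpair.1 / 4).unpair.1.unpair.2) :=
    Primrec.snd.comp (Primrec.unpair.comp hw1)
  have t1 : Computable (fun p : ℕ => p.unpair.1 % 2 == 1) :=
    (Primrec.beq.comp (Primrec.nat_mod.comp hs (Primrec.const 2)) (Primrec.const 1)).to_comp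
  have t2 : Computable (fun p : ℕ => p.unpair.1 % 4 == 2) :=
    (Primrec.beq.comp (Primrec.nat_mod.comp hs (Primrec.const 4)) (Primrec.const 2)).to_comp
  have t3 : Computable (fun p : ℕ => f (p.unpair.1 / 4).unpair.1.unpair.2 == p.unpair.2) :=
    Primrec.beq.to_comp.comp (hf.comp hw12.to_comp) hl.to_comp
  have t4 : Computable (fun p : ℕ => (p.unpair.1 / 4).unpair.2 == 0) :=
    (Primrec.beq.comp hw2 (Primrec.const 0)).to_comp
  refine Computable.cond t1 ?_ (Computable.cond t2 (Computable.cond t3 (Computable.cond t4 ?_ ?_)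
    Computable.id) ?_)
  · exact Primrec₂.natPair.to_comp.comp (Primrec.nat_add.comp (Primrec.nat_mul.comp
      (Primrec.const 4) (Primrec₂.natPair.comp (Primrec₂.natPair.comp hh hl) (Primrec.const 0)))
      (Primrec.const 2)).to_comp (hf.comp hl.to_comp)
  · exact (Primrec₂.natPair.comp (Primrec.nat_add.comp (Primrec.nat_mul.comp (Primrec.const 2)
      hw11) (Primrec.const 1)) hw12).to_comp
  · exact (Primrec₂.natPair.comp (Primrec.nat_mul.comp (Primrec.const 4)
      (Primrec₂.natPair.comp hw11 (Primrec.nat_sub.comp hw2 (Primrec.const 1)))) hw12).to_comp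
  · exact Primrec₂.natPair.to_comp.comp (Primrec.nat_add.comp (Primrec.nat_mul.comp
      (Primrec.const 4) (Primrec₂.natPair.comp (Primrec₂.natPair.comp hw1 hl)
      (Primrec.nat_add.comp hw2 (Primrec.const 1)))) (Primrec.const 2)).to_comp
      (hf.comp hl.to_comp)

/-- the conjugates -/
def S (g : ℕ → ℕ) (p : ℕ) : ℕ := sg (g (sg p))

theorem S_inv {g : ℕ → ℕ} (hg : Function.Involutive g) : Function.Involutive (S g) := by
  intro p
  unfold S
  rw [sg_inv, hg, sg_inv]

theorem c_S {g : ℕ → ℕ} (hg : Computable g) : Computable (S g) := c_sg.comp (hg.comp c_sg)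

/-- **Key lemma.** If `B` is `A` after `f` and `A` is `B` after `g`, then the set with infinitely
many copies of `B` arises from the one with infinitely many copies of `A` by four involutions. -/
theorem key (f g : ℕ → ℕ) (A B : ℕ → Bool) (hf : ∀ l, B l = A (f l)) (hg : ∀ l, A l = B (g l)) :
    (fun p : ℕ => B p.unpair.2) =
      ((((fun p : ℕ => A p.unpair.2) ∘ R2 f) ∘ R1 f) ∘ S (R1 g)) ∘ S (R2 g) := by
  funext p
  have h1 : ∀ q : ℕ, A (R2 f (R1 f q)).unpair.2 =
      if q.unpair.1 % 2 = 1 then B q.unpair.2 else A q.unpair.2 := by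
    intro q
    rw [lab_RR]
    split_ifs
    · rw [hf]
    · rfl
  have h2 : ∀ q : ℕ, B (S (R2 g) (S (R1 g) q)).unpair.2 =
      if q.unpair.1 % 2 = 1 then B q.unpair.2 else A q.unpair.2 := by
    intro q
    have e : S (R2 g) (S (R1 g) q) = sg (R2 g (R1 g (sg q))) := by
      unfold S
      rw [sg_inv]
    rw [e, lab_SRRS]
    split_ifs
    · rfl
    · rw [hg]
  show B p.unpair.2 = A (R2 f (R1 f (S (R1 g) (S (R2 g) p)))).unpair.2
  rw [h1, ← h2, (S_inv (R1_inv g)), (S_inv (R2_inv g))]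

end Pool.Agent.U72.PIN
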