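import Pool.Agent.N584.PI.Fin
import Pool.Agent.U72.PIN.Inv

/-!
# Solutions to Post's problem and computable involutions
-/

set_option autoImplicit false
set_option maxHeartbeats 2000000

namespace Pool.Agent.U72.PIN

open Nat.Partrec (Code)
open Encodable
open Pool.Agent.Helper446.Defs Pool.Agent.Helper446.Oracle
open Pool.Agent.H639.LU Pool.Agent.R616.DI Pool.Agent.Y579.PP Pool.Agent.H869R3.FN
open Pool.Agent.N584.PI

/-- `Y` is truth-table reducible to `X`. -/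
def TTle (Y X : ℕ → Bool) : Prop :=
  ∃ (δ : ℕ × List Bool → Bool) (u : ℕ → ℕ), Computable δ ∧ Computable u ∧
    ∀ n, Y n = δ (n, (List.range (u n)).map X)

/-- truth-table reductions as total functionals -/
theorem tt_fun {δ : ℕ × List Bool → Bool} {u : ℕ → ℕ} (hδ : Computable δ) (hu : Computable u) :
    ∃ f : ℕ → ℕ, Computable f ∧ ∀ X Y : ℕ → Bool,
      (∀ n, Y n = δ (n, (List.range (u n)).map X)) → ∀ l, val Y l = val X (f l) := by
  refine ⟨pull (fun t => ((List.range t).map u).sum)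
    (fun t w => (List.range t).map fun n => δ (n, w.take (u n))), ?_, fun X Y h =>
      t_PUL _ _ X Y ?_⟩
  · refine fin_PLC _ _ ?_ ?_
    · exact CMP_sum (CMP_map (CMP_range Computable.id) (hu.comp Computable.snd))
    · refine CMP_map (CMP_range Computable.fst) ?_
      exact hδ.comp (Computable.snd.pair (CMP_take (Computable.snd.comp Computable.fst)
        (hu.comp Computable.snd)))
  · intro t s hs
    show (List.range t).map _ = (List.range t).map _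
    refine List.map_congr_left fun n hn => ?_
    have hn' := List.mem_range.1 hn
    have h1 : u n ≤ ((List.range t).map u).sum :=
      List.single_le_sum (fun _ _ => Nat.zero_le _) _ (List.mem_map_of_mem hn)
    rw [OPR_take X (h1.trans hs)]
    exact (h n).symm

theorem tt_perm {g : ℕ → ℕ} (hg : Computable g) :
    ∃ f : ℕ → ℕ, Computable f ∧ ∀ X : ℕ → Bool, ∀ l, val (X ∘ g) l = val X (f l) := by
  obtain ⟨f, hf, h⟩ := tt_fun (δ := fun q : ℕ × List Bool => q.2.getD (g q.1) false)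
    (u := fun n => g n + 1)
    (((Primrec.list_getD false).to_comp).comp Computable.snd (hg.comp Computable.fst))
    (Computable.succ.comp hg)
  exact ⟨f, hf, fun X => h X (X ∘ g) fun n => (OPR_get X (by omega)).symm⟩

theorem le_inv {τ : ℕ → ℕ} (h1 : Computable τ) (h2 : Function.Involutive τ) (X : ℕ → Bool) :
    le X (X ∘ τ) := K4.2.2.2 _ _ τ h1 fun n => by simp [h2 n]

/-- The operator `W_r` on the codes. -/
theorem hat_op (r : Code) (z₀ : ℕ → Bool) (hr : Post r z₀) :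
    ∃ s : Code, (∀ X, ch (W s X) = ch (W r (hat X))) ∧ Post s z₀ := by
  have hHat := t_HAT
  obtain ⟨-, H, hHc, hHh⟩ := hHat
  obtain ⟨s, hs⟩ := t_OPR hat H hHc hHh r
  have hs' : ∀ X, ch (W s X) = ch (W r (hat X)) := fun X => ch_congr (hs X)
  refine ⟨s, hs', fun X hX => ?_⟩
  have hh := LOC_hat t_HAT X
  obtain ⟨h2, h3, h4⟩ := hr (hat X) (le_trans' hX hh.1)
  rw [hs']
  exact ⟨le_trans' hh.1 h2, fun h => h3 (le_trans' h hh.1), fun h => h4 (le_trans' (LOC_jump hh.2) h)⟩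

theorem hat_key {f g : ℕ → ℕ} {X Y : ℕ → Bool} (hf : ∀ l, val Y l = val X (f l))
    (hg : ∀ l, val X l = val Y (g l)) :
    hat Y = (((hat X ∘ R2 f) ∘ R1 f) ∘ S (R1 g)) ∘ S (R2 g) :=
  key f g (val X) (val Y) hf hg

/-- The part on non-uniform invariance. -/
theorem part2 (r : Code) (z₀ : ℕ → Bool) (hr : Post r z₀)
    (hinv : ∀ τ : ℕ → ℕ, Computable τ → Function.Involutive τ → ∀ X, le z₀ X →
      le (ch (W r (X ∘ τ))) (ch (W r X))) :
    ∃ s : Code, Post s z₀ ∧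
      ∀ X Y, le z₀ X → TTle X Y → TTle Y X → le (ch (W s Y)) (ch (W s X)) := by
  obtain ⟨s, hs, hp⟩ := hat_op r z₀ hr
  refine ⟨s, hp, fun X Y hX hXY hYX => ?_⟩
  obtain ⟨δ, u, hδ, hu, h⟩ := hYX
  obtain ⟨δ', u', hδ', hu', h'⟩ := hXY
  obtain ⟨f, hf, hf'⟩ := tt_fun hδ hu
  obtain ⟨g, hg, hg'⟩ := tt_fun hδ' hu'
  rw [hs, hs, hat_key (hf' X Y h) (hg' Y X h')]
  have h0 : le z₀ (hat X) := le_trans' hX (LOC_hat t_HAT X).1
  have h1 : le z₀ (hat X ∘ R2 f) := le_trans' h0 (le_inv (c_R2 hf) (R2_inv f) _)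
  have h2 : le z₀ ((hat X ∘ R2 f) ∘ R1 f) := le_trans' h1 (le_inv (c_R1 hf) (R1_inv f) _)
  have h3 : le z₀ (((hat X ∘ R2 f) ∘ R1 f) ∘ S (R1 g)) :=
    le_trans' h2 (le_inv (c_S (c_R1 hg)) (S_inv (R1_inv g)) _)
  exact le_trans' (hinv _ (c_S (c_R2 hg)) (S_inv (R2_inv g)) _ h3)
    (le_trans' (hinv _ (c_S (c_R1 hg)) (S_inv (R1_inv g)) _ h2)
      (le_trans' (hinv _ (c_R1 hf) (R1_inv f) _ h1) (hinv _ (c_R2 hf) (R2_inv f) _ h0)))

/-- jumps of equivalent sets are truth-table equivalent -/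
theorem tt_jump {Z Z' : ℕ → Bool} (h : le Z' Z) : TTle (ch (J Z')) (ch (J Z)) := by
  obtain ⟨i, hi⟩ := (le_iff _ _).1 h
  obtain ⟨B, Θ, hB, hΘ, hT⟩ := DEG_tt i
  refine ⟨fun q => (Θ (q.1 + 1) q.2).getD q.1 false, fun n => B (n + 1), ?_,
    hB.comp Computable.succ, fun n => ?_⟩
  · exact ((Primrec.list_getD false).to_comp).comp (hΘ.comp
      (g := fun p : ℕ × List Bool => (p.1 + 1, p.2)) (by fun_prop)) Computable.fst
  · have := hT Z Z' hi (n + 1) (B (n + 1)) le_rfl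
    show ch (J Z') n = (Θ (n + 1) (seg (ch (J Z)) (B (n + 1)))).getD n false
    rw [this, OPR_get _ (by omega)]

/-- composition of four programs -/
theorem comp4 : ∃ κ : Code → Code → Code → Code → Code,
    ∀ (a b c d : Code) (X₀ X₁ X₂ X₃ X₄ : ℕ → Bool), Red a X₀ X₁ → Red b X₁ X₂ → Red c X₂ X₃ →
      Red d X₃ X₄ → Red (κ a b c d) X₀ X₄ := by
  obtain ⟨κ, -, hκ⟩ := K7
  exact ⟨fun a b c d => κ (κ (κ (a, b), c), d), fun a b c d X₀ X₁ X₂ X₃ X₄ h1 h2 h3 h4 =>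
    hκ _ _ _ _ _ (hκ _ _ _ _ _ (hκ _ _ _ _ _ h1 h2) h3) h4⟩

open Classical in
/-- composition of four programs from finite lists -/
theorem comp_fin (κ : Code → Code → Code → Code → Code) (B : Fin 4 → Finset Code)
    {X₀ X₁ X₂ X₃ X₄ : ℕ → Bool} (q0 : ∃ b ∈ B 0, Red b X₀ X₁) (q1 : ∃ b ∈ B 1, Red b X₁ X₂)
    (q2 : ∃ b ∈ B 2, Red b X₂ X₃) (q3 : ∃ b ∈ B 3, Red b X₃ X₄)
    (hκ : ∀ (a b c d : Code) (X₀ X₁ X₂ X₃ X₄ : ℕ → Bool), Red a X₀ X₁ → Red b X₁ X₂ →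
      Red c X₂ X₃ → Red d X₃ X₄ → Red (κ a b c d) X₀ X₄) :
    ∃ b ∈ ((B 0 ×ˢ B 1) ×ˢ (B 2 ×ˢ B 3)).image (fun q => κ q.1.1 q.1.2 q.2.1 q.2.2),
      Red b X₀ X₄ := by
  obtain ⟨b0, hb0, r0⟩ := q0
  obtain ⟨b1, hb1, r1⟩ := q1
  obtain ⟨b2, hb2, r2⟩ := q2
  obtain ⟨b3, hb3, r3⟩ := q3
  exact ⟨_, Finset.mem_image_of_mem _ (Finset.mk_mem_product (Finset.mk_mem_product hb0 hb1)
    (Finset.mk_mem_product hb2 hb3)), hκ _ _ _ _ _ _ _ _ _ r0 r1 r2 r3⟩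

/-- The part on uniform invariance. -/
theorem part1 : ∃ τ τ' : Fin 4 → ℕ → ℕ,
    (∀ i, Computable (τ i) ∧ Function.Involutive (τ i) ∧ Computable (τ' i) ∧
      Function.Involutive (τ' i)) ∧
    ∀ (r : Code) (z₀ : ℕ → Bool), Post r z₀ →
      ¬ ∃ (z : ℕ → Bool) (a : Fin 4 → Code) (B : Fin 4 → Finset Code), ∀ X : ℕ → Bool, le z X →
        ∀ i, Red (a i) (ch (W r X)) (ch (W r (X ∘ τ i))) ∧
          ∃ b ∈ B i, Red b (ch (W r X)) (ch (W r (X ∘ τ' i))) := by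
  classical
  obtain ⟨α, β, ⟨hα, hα', hβ, hβ'⟩, hno⟩ := fin_TWO
  obtain ⟨f, hf, hfv⟩ := tt_perm hα
  obtain ⟨g, hg, hgv⟩ := tt_perm hα'
  obtain ⟨f', hf', hfv'⟩ := tt_perm hβ
  obtain ⟨g', hg', hgv'⟩ := tt_perm hβ'
  have hgv2 : ∀ X : ℕ → Bool, ∀ l, val X l = val (X ∘ α) (g l) := by
    intro X l
    rw [← hgv (X ∘ α) l]
    congr 1
    funext n
    simp
  have hgv2' : ∀ X : ℕ → Bool, ∀ l, val X l = val (X ∘ β) (g' l) := by
    intro X l
    rw [← hgv' (X ∘ β) l]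
    congr 1
    funext n
    simp
  refine ⟨![R2 f, R1 f, S (R1 g), S (R2 g)], ![R2 f', R1 f', S (R1 g'), S (R2 g')], ?_, ?_⟩
  · intro i
    fin_cases i
    · exact ⟨c_R2 hf, R2_inv f, c_R2 hf', R2_inv f'⟩
    · exact ⟨c_R1 hf, R1_inv f, c_R1 hf', R1_inv f'⟩
    · exact ⟨c_S (c_R1 hg), S_inv (R1_inv g), c_S (c_R1 hg'), S_inv (R1_inv g')⟩
    · exact ⟨c_S (c_R2 hg), S_inv (R2_inv g), c_S (c_R2 hg'), S_inv (R2_inv g')⟩
  · rintro r z₀ hr ⟨z, a, B, h⟩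
    obtain ⟨s, hs, hp⟩ := hat_op r z₀ hr
    obtain ⟨κ, hκ⟩ := comp4
    have hκ' := hκ
    have e0 : (![R2 f', R1 f', S (R1 g'), S (R2 g')] : Fin 4 → ℕ → ℕ) 0 = R2 f' := rfl
    have e1 : (![R2 f', R1 f', S (R1 g'), S (R2 g')] : Fin 4 → ℕ → ℕ) 1 = R1 f' := rfl
    have e2 : (![R2 f', R1 f', S (R1 g'), S (R2 g')] : Fin 4 → ℕ → ℕ) 2 = S (R1 g') := rfl
    have e3 : (![R2 f', R1 f', S (R1 g'), S (R2 g')] : Fin 4 → ℕ → ℕ) 3 = S (R2 g') := rfl
    refine hno s z₀ hp ⟨z, κ (a 0) (a 1) (a 2) (a 3), κ (a 3) (a 2) (a 1) (a 0),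
      ((B 0 ×ˢ B 1) ×ˢ (B 2 ×ˢ B 3)).image (fun q => κ q.1.1 q.1.2 q.2.1 q.2.2),
      fun X hX => ⟨?_, ?_, ?_⟩⟩
    · rw [hs, hs, hat_key (hfv X) (hgv2 X)]
      have h0 : le z (hat X) := le_trans' hX (LOC_hat t_HAT X).1
      have h1 := le_trans' h0 (le_inv (c_R2 hf) (R2_inv f) (hat X))
      have h2 := le_trans' h1 (le_inv (c_R1 hf) (R1_inv f) _)
      have h3 := le_trans' h2 (le_inv (c_S (c_R1 hg)) (S_inv (R1_inv g)) _)
      exact hκ _ _ _ _ _ _ _ _ _ (h _ h0 0).1 (h _ h1 1).1 (h _ h2 2).1 (h _ h3 3).1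
    · have e : hat (X ∘ α.symm) = (((hat X ∘ S (R2 g)) ∘ S (R1 g)) ∘ R1 f) ∘ R2 f := by
        have e1 := hat_key (hfv (X ∘ α.symm)) (hgv2 (X ∘ α.symm))
        have e2 : (X ∘ α.symm) ∘ α = X := by
          funext n
          simp
        rw [e2] at e1
        rw [e1]
        funext p
        simp only [Function.comp_apply]
        rw [S_inv (R2_inv g), S_inv (R1_inv g), R1_inv f, R2_inv f]
      rw [hs, hs, e]
      have h0 : le z (hat X) := le_trans' hX (LOC_hat t_HAT X).1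
      have h1 := le_trans' h0 (le_inv (c_S (c_R2 hg)) (S_inv (R2_inv g)) (hat X))
      have h2 := le_trans' h1 (le_inv (c_S (c_R1 hg)) (S_inv (R1_inv g)) _)
      have h3 := le_trans' h2 (le_inv (c_R1 hf) (R1_inv f) _)
      exact hκ _ _ _ _ _ _ _ _ _ (h _ h0 3).1 (h _ h1 2).1 (h _ h2 1).1 (h _ h3 0).1
    · rw [hs, hs, hat_key (hfv' X) (hgv2' X)]
      have h0 : le z (hat X) := le_trans' hX (LOC_hat t_HAT X).1
      have h1 := le_trans' h0 (le_inv (c_R2 hf') (R2_inv f') (hat X))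
      have h2 := le_trans' h1 (le_inv (c_R1 hf') (R1_inv f') _)
      have h3 := le_trans' h2 (le_inv (c_S (c_R1 hg')) (S_inv (R1_inv g')) _)
      have q0 := (h _ h0 0).2
      have q1 := (h _ h1 1).2
      have q2 := (h _ h2 2).2
      have q3 := (h _ h3 3).2
      rw [e0] at q0
      rw [e1] at q1
      rw [e2] at q2
      rw [e3] at q3
      clear hno h hs hp hκ
      exact comp_fin κ B q0 q1 q2 q3 hκ'

end Pool.Agent.U72.PIN
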