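import Pool.Agent.U72.PIN.Dom

/-!
# Three computable involutions
-/

set_option autoImplicit false
set_option maxHeartbeats 2000000

namespace Pool.Agent.U72.PIN

open Nat.Partrec (Code)
open Encodable
open Pool.Agent.Helper446.Defs Pool.Agent.Helper446.Oracle
open Pool.Agent.H639.LU Pool.Agent.R616.DI Pool.Agent.Y579.PP Pool.Agent.H869R3.FN
open Pool.Agent.N584.PI

/-- reflections of the orbit `… 3, 1, 0, 2, 4, …` -/
def k1 (n : ℕ) : ℕ := if n = 0 then 0 else if n % 2 = 0 then n - 1 else n + 1

def k2 (n : ℕ) : ℕ := if n = 0 then 2 else if n = 2 then 0 else if n % 2 = 0 then n - 3 else n + 3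

theorem k1_even {n : ℕ} (h : n % 2 = 0) (h0 : n ≠ 0) : k1 n = n - 1 := by
  unfold k1
  rw [if_neg h0, if_pos h]

theorem k1_odd {n : ℕ} (h : n % 2 = 1) : k1 n = n + 1 := by
  unfold k1
  rw [if_neg (by omega), if_neg (by omega)]

theorem k2_even {n : ℕ} (h : n % 2 = 0) (h0 : n ≠ 0) (h2 : n ≠ 2) : k2 n = n - 3 := by
  unfold k2
  rw [if_neg h0, if_neg h2, if_pos h]

theorem k2_odd {n : ℕ} (h : n % 2 = 1) : k2 n = n + 3 := by
  unfold k2
  rw [if_neg (by omega), if_neg (by omega), if_neg (by omega)]

theorem k1_inv (n : ℕ) : k1 (k1 n) = n := by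
  by_cases h0 : n = 0
  · subst h0
    rfl
  · rcases Nat.mod_two_eq_zero_or_one n with h | h
    · rw [k1_even h h0, k1_odd (by omega)]
      omega
    · rw [k1_odd h, k1_even (by omega) (by omega)]
      omega

theorem k2_inv (n : ℕ) : k2 (k2 n) = n := by
  by_cases h0 : n = 0
  · subst h0
    rfl
  · by_cases h2 : n = 2
    · subst h2
      rfl
    · rcases Nat.mod_two_eq_zero_or_one n with h | h
      · rw [k2_even h h0 h2, k2_odd (by omega)]
        omega
      · rw [k2_odd h, k2_even (by omega) (by omega) (by omega)]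
        omega

theorem sftF_eq (n : ℕ) : sftF n = k2 (k1 n) := by
  by_cases h0 : n = 0
  · subst h0
    rfl
  · rcases Nat.mod_two_eq_zero_or_one n with h | h
    · rw [k1_even h h0, k2_odd (by omega), sftF_even h]
      omega
    · by_cases h1 : n = 1
      · subst h1
        rfl
      · rw [k1_odd h, k2_even (by omega) (by omega) (by omega), sftF_odd h h1]
        omega

theorem sftG_eq (n : ℕ) : sftG n = k1 (k2 n) := by
  by_cases h0 : n = 0
  · subst h0
    rfl
  · by_cases h2 : n = 2
    · subst h2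
      rfl
    · rcases Nat.mod_two_eq_zero_or_one n with h | h
      · rw [k2_even h h0 h2, k1_odd (by omega), sftG_even h h0]
        omega
      · rw [k2_odd h, k1_even (by omega) (by omega), sftG_odd h]
        omega

/-- the reflections of the columns -/
def rho (k : ℕ → ℕ) (a : ℕ) : ℕ := Nat.pair (k a.unpair.1) a.unpair.2

theorem rho_inv {k : ℕ → ℕ} (h : ∀ n, k (k n) = n) : Function.Involutive (rho k) := by
  intro a
  unfold rho
  rw [Nat.unpair_pair, h, Nat.pair_unpair]

theorem c_k1 : Computable k1 := by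
  have h : Primrec k1 := by
    unfold k1
    exact Primrec.ite (Primrec.eq.comp Primrec.id (Primrec.const 0)) (Primrec.const 0)
      (Primrec.ite (Primrec.eq.comp (Primrec.nat_mod.comp Primrec.id (Primrec.const 2))
        (Primrec.const 0)) (Primrec.nat_sub.comp Primrec.id (Primrec.const 1))
        (Primrec.nat_add.comp Primrec.id (Primrec.const 1)))
  exact h.to_comp

theorem c_k2 : Computable k2 := by
  have h : Primrec k2 := by
    unfold k2
    exact Primrec.ite (Primrec.eq.comp Primrec.id (Primrec.const 0)) (Primrec.const 2)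
      (Primrec.ite (Primrec.eq.comp Primrec.id (Primrec.const 2)) (Primrec.const 0)
        (Primrec.ite (Primrec.eq.comp (Primrec.nat_mod.comp Primrec.id (Primrec.const 2))
          (Primrec.const 0)) (Primrec.nat_sub.comp Primrec.id (Primrec.const 3))
          (Primrec.nat_add.comp Primrec.id (Primrec.const 3))))
  exact h.to_comp

theorem c_rho {k : ℕ → ℕ} (h : Computable k) : Computable (rho k) :=
  Primrec₂.natPair.to_comp.comp (h.comp TWO_u1) TWO_u2

theorem alp_eq (a : ℕ) : alp a = rho k2 (rho k1 a) := by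
  show Nat.pair (sftF a.unpair.1) a.unpair.2 = _
  unfold rho
  rw [Nat.unpair_pair, sftF_eq]

theorem alp_symm_eq (a : ℕ) : alp.symm a = rho k1 (rho k2 a) := by
  show Nat.pair (sftG a.unpair.1) a.unpair.2 = _
  unfold rho
  rw [Nat.unpair_pair, sftG_eq]

/-- an involution as a permutation -/
def ip (τ : ℕ → ℕ) (h : Function.Involutive τ) : Equiv.Perm ℕ := ⟨τ, τ, h, h⟩

/-- the four involutions -/
def io (f g : ℕ → ℕ) (j : ℕ) : ℕ → ℕ :=
  if j = 0 then R2 f else if j = 1 then R1 f else if j = 2 then S (R1 g) else S (R2 g)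

theorem io_inv (f g : ℕ → ℕ) (j : ℕ) : Function.Involutive (io f g j) := by
  unfold io
  split_ifs
  · exact R2_inv f
  · exact R1_inv f
  · exact S_inv (R1_inv g)
  · exact S_inv (R2_inv g)

/-- the permutation which is composed of them -/
def Pm (f g : ℕ → ℕ) : Equiv.Perm ℕ where
  toFun p := R2 f (R1 f (S (R1 g) (S (R2 g) p)))
  invFun p := S (R2 g) (S (R1 g) (R1 f (R2 f p)))
  left_inv p := by
    show S (R2 g) (S (R1 g) (R1 f (R2 f (R2 f (R1 f (S (R1 g) (S (R2 g) p))))))) = p
    rw [R2_inv f, R1_inv f, S_inv (R1_inv g), S_inv (R2_inv g)]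
  right_inv p := by
    show R2 f (R1 f (S (R1 g) (S (R2 g) (S (R2 g) (S (R1 g) (R1 f (R2 f p))))))) = p
    rw [S_inv (R2_inv g), S_inv (R1_inv g), R1_inv f, R2_inv f]

theorem Pm_apply (f g : ℕ → ℕ) (p : ℕ) :
    Pm f g p = R2 f (R1 f (S (R1 g) (S (R2 g) p))) := by
  unfold Pm
  rw [Equiv.coe_fn_mk]

theorem Pm_ok : PmOk Pm := by
  intro f g P Q h1 h2 p
  have h := congrFun (key f g P Q h1 h2) p
  simp only [Function.comp_apply] at h
  rw [Pm_apply]
  exact h

/-- the involutions, in one sequence -/
def iota (m : ℕ) : Equiv.Perm ℕ := ip (io (fF (m / 4)) (gG (m / 4)) (m % 4)) (io_inv _ _ _)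

theorem iota_inv (m : ℕ) (p : ℕ) : iota m (iota m p) = p := io_inv _ _ _ p

theorem c_sg' {α : Type} [Primcodable α] {p : α → ℕ} (h : Computable p) :
    Computable (fun x => sg (p x)) := c_sg.comp h

section unif

variable {α : Type} [Primcodable α]

theorem u_R1 {F : α → ℕ → ℕ} {p : α → ℕ} (hF : Computable₂ F) (hp : Computable p) :
    Computable (fun x => R1 (F x) (p x)) := by
  have hs : Computable (fun x => (p x).unpair.1) := TWO_u1.comp hp
  have hl : Computable (fun x => (p x).unpair.2) := TWO_u2.comp hp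
  have hw : Computable (fun x => (p x).unpair.1 / 4) :=
    Primrec.nat_div.to_comp.comp hs (Computable.const 4)
  have hw1 : Computable (fun x => ((p x).unpair.1 / 4).unpair.1) := TWO_u1.comp hw
  have hw2 : Computable (fun x => ((p x).unpair.1 / 4).unpair.2) := TWO_u2.comp hw
  have hw11 : Computable (fun x => ((p x).unpair.1 / 4).unpair.1.unpair.1) := TWO_u1.comp hw1
  have hw12 : Computable (fun x => ((p x).unpair.1 / 4).unpair.1.unpair.2) := TWO_u2.comp hw1
  have t1 : Computable (fun x => (p x).unpair.1 % 2 == 1) :=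
    Primrec.beq.to_comp.comp (Primrec.nat_mod.to_comp.comp hs (Computable.const 2))
      (Computable.const 1)
  have t2 : Computable (fun x => (p x).unpair.1 % 4 == 2) :=
    Primrec.beq.to_comp.comp (Primrec.nat_mod.to_comp.comp hs (Computable.const 4))
      (Computable.const 2)
  have t3 : Computable (fun x => F x ((p x).unpair.1 / 4).unpair.1.unpair.2 == (p x).unpair.2) :=
    Primrec.beq.to_comp.comp (hF.comp Computable.id hw12) hl
  refine Computable.cond t1 hp (Computable.cond t2 (Computable.cond t3 ?_ hp) ?_)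
  · exact Primrec₂.natPair.to_comp.comp (Primrec.nat_mul.to_comp.comp (Computable.const 4)
      (Primrec₂.natPair.to_comp.comp hw11 hw2)) hw12
  · exact Primrec₂.natPair.to_comp.comp (Primrec.nat_add.to_comp.comp
      (Primrec.nat_mul.to_comp.comp (Computable.const 4) (Primrec₂.natPair.to_comp.comp
        (Primrec₂.natPair.to_comp.comp hw1 hl) hw2)) (Computable.const 2))
      (hF.comp Computable.id hl)

theorem u_R2 {F : α → ℕ → ℕ} {p : α → ℕ} (hF : Computable₂ F) (hp : Computable p) :
    Computable (fun x => R2 (F x) (p x)) := by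
  have hs : Computable (fun x => (p x).unpair.1) := TWO_u1.comp hp
  have hl : Computable (fun x => (p x).unpair.2) := TWO_u2.comp hp
  have hh : Computable (fun x => (p x).unpair.1 / 2) :=
    Primrec.nat_div.to_comp.comp hs (Computable.const 2)
  have hw : Computable (fun x => (p x).unpair.1 / 4) :=
    Primrec.nat_div.to_comp.comp hs (Computable.const 4)
  have hw1 : Computable (fun x => ((p x).unpair.1 / 4).unpair.1) := TWO_u1.comp hw
  have hw2 : Computable (fun x => ((p x).unpair.1 / 4).unpair.2) := TWO_u2.comp hw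
  have hw11 : Computable (fun x => ((p x).unpair.1 / 4).unpair.1.unpair.1) := TWO_u1.comp hw1
  have hw12 : Computable (fun x => ((p x).unpair.1 / 4).unpair.1.unpair.2) := TWO_u2.comp hw1
  have t1 : Computable (fun x => (p x).unpair.1 % 2 == 1) :=
    Primrec.beq.to_comp.comp (Primrec.nat_mod.to_comp.comp hs (Computable.const 2))
      (Computable.const 1)
  have t2 : Computable (fun x => (p x).unpair.1 % 4 == 2) :=
    Primrec.beq.to_comp.comp (Primrec.nat_mod.to_comp.comp hs (Computable.const 4))
      (Computable.const 2)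
  have t3 : Computable (fun x => F x ((p x).unpair.1 / 4).unpair.1.unpair.2 == (p x).unpair.2) :=
    Primrec.beq.to_comp.comp (hF.comp Computable.id hw12) hl
  have t4 : Computable (fun x => ((p x).unpair.1 / 4).unpair.2 == 0) :=
    Primrec.beq.to_comp.comp hw2 (Computable.const 0)
  refine Computable.cond t1 ?_ (Computable.cond t2 (Computable.cond t3 (Computable.cond t4 ?_ ?_)
    hp) ?_)
  · exact Primrec₂.natPair.to_comp.comp (Primrec.nat_add.to_comp.comp
      (Primrec.nat_mul.to_comp.comp (Computable.const 4) (Primrec₂.natPair.to_comp.comp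
        (Primrec₂.natPair.to_comp.comp hh hl) (Computable.const 0))) (Computable.const 2))
      (hF.comp Computable.id hl)
  · exact Primrec₂.natPair.to_comp.comp (Primrec.nat_add.to_comp.comp
      (Primrec.nat_mul.to_comp.comp (Computable.const 2) hw11) (Computable.const 1)) hw12
  · exact Primrec₂.natPair.to_comp.comp (Primrec.nat_mul.to_comp.comp (Computable.const 4)
      (Primrec₂.natPair.to_comp.comp hw11 (Primrec.nat_sub.to_comp.comp hw2
        (Computable.const 1)))) hw12
  · exact Primrec₂.natPair.to_comp.comp (Primrec.nat_add.to_comp.comp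
      (Primrec.nat_mul.to_comp.comp (Computable.const 4) (Primrec₂.natPair.to_comp.comp
        (Primrec₂.natPair.to_comp.comp hw1 hl) (Primrec.nat_add.to_comp.comp hw2
          (Computable.const 1)))) (Computable.const 2)) (hF.comp Computable.id hl)

end unif

theorem c_iota : Computable₂ (fun m p => iota m p) := by
  have hd : Computable (fun x : ℕ × ℕ => x.1 / 4) :=
    Primrec.nat_div.to_comp.comp Computable.fst (Computable.const 4)
  have hj : ∀ j : ℕ, Computable (fun x : ℕ × ℕ => x.1 % 4 == j) := fun j =>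
    Primrec.beq.to_comp.comp (Primrec.nat_mod.to_comp.comp Computable.fst (Computable.const 4))
      (Computable.const j)
  have hcm := t_CMP t_EV1
  have hF : Computable₂ (fun (x : ℕ × ℕ) (l : ℕ) => fF (x.1 / 4) l) :=
    hcm.1.comp (hd.comp Computable.fst) Computable.snd
  have hG : Computable₂ (fun (x : ℕ × ℕ) (l : ℕ) => gG (x.1 / 4) l) :=
    hcm.2.comp (hd.comp Computable.fst) Computable.snd
  have h0 : Computable (fun x : ℕ × ℕ => R2 (fF (x.1 / 4)) x.2) := u_R2 hF Computable.snd
  have h1 : Computable (fun x : ℕ × ℕ => R1 (fF (x.1 / 4)) x.2) := u_R1 hF Computable.snd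
  have h2 : Computable (fun x : ℕ × ℕ => S (R1 (gG (x.1 / 4))) x.2) :=
    c_sg.comp (u_R1 hG (c_sg.comp Computable.snd))
  have h3 : Computable (fun x : ℕ × ℕ => S (R2 (gG (x.1 / 4))) x.2) :=
    c_sg.comp (u_R2 hG (c_sg.comp Computable.snd))
  have h : Computable (fun x : ℕ × ℕ => bif x.1 % 4 == 0 then R2 (fF (x.1 / 4)) x.2 else
      bif x.1 % 4 == 1 then R1 (fF (x.1 / 4)) x.2 else
      bif x.1 % 4 == 2 then S (R1 (gG (x.1 / 4))) x.2 else S (R2 (gG (x.1 / 4))) x.2) :=
    Computable.cond (hj 0) h0 (Computable.cond (hj 1) h1 (Computable.cond (hj 2) h2 h3))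
  refine h.of_eq fun x => ?_
  show _ = io (fF (x.1 / 4)) (gG (x.1 / 4)) (x.1 % 4) x.2
  unfold io
  obtain ⟨j, hj'⟩ : ∃ j, j = x.1 % 4 := ⟨_, rfl⟩
  rw [← hj']
  have hj4 : j < 4 := by omega
  interval_cases j <;> rfl

theorem bet_inv : Function.Involutive (bet iota) := by
  intro a
  show (if (Nat.unpair (if a.unpair.1 % 2 = 0 then
    Nat.pair a.unpair.1 (iota (a.unpair.1 / 2) a.unpair.2) else a)).1 % 2 = 0 then _ else _) = _
  by_cases h : a.unpair.1 % 2 = 0
  · simp [h, bet, iota_inv]
  · simp [h, bet]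

end Pool.Agent.U72.PIN
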