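import Pool.Agent.U72.PIN.Three

/-!
# No solution to Post's problem is uniformly invariant under three computable involutions
-/

set_option autoImplicit false
set_option maxHeartbeats 2000000

namespace Pool.Agent.U72.PIN

open Nat.Partrec (Code)
open Encodable
open Pool.Agent.Helper446.Defs Pool.Agent.Helper446.Oracle
open Pool.Agent.H639.LU Pool.Agent.R616.DI Pool.Agent.Y579.PP Pool.Agent.H869R3.FN
open Pool.Agent.N584.PI

theorem iota_0 (n : ℕ) : (iota (4 * n) : ℕ → ℕ) = R2 (fF n) := by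
  show io (fF (4 * n / 4)) (gG (4 * n / 4)) (4 * n % 4) = _
  have e1 : 4 * n / 4 = n := by omega
  have e2 : 4 * n % 4 = 0 := by omega
  rw [e1, e2]
  rfl

theorem iota_1 (n : ℕ) : (iota (4 * n + 1) : ℕ → ℕ) = R1 (fF n) := by
  show io (fF ((4 * n + 1) / 4)) (gG ((4 * n + 1) / 4)) ((4 * n + 1) % 4) = _
  have e1 : (4 * n + 1) / 4 = n := by omega
  have e2 : (4 * n + 1) % 4 = 1 := by omega
  rw [e1, e2]
  rfl

theorem iota_2 (n : ℕ) : (iota (4 * n + 2) : ℕ → ℕ) = S (R1 (gG n)) := by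
  show io (fF ((4 * n + 2) / 4)) (gG ((4 * n + 2) / 4)) ((4 * n + 2) % 4) = _
  have e1 : (4 * n + 2) / 4 = n := by omega
  have e2 : (4 * n + 2) % 4 = 2 := by omega
  rw [e1, e2]
  rfl

theorem iota_3 (n : ℕ) : (iota (4 * n + 3) : ℕ → ℕ) = S (R2 (gG n)) := by
  show io (fF ((4 * n + 3) / 4)) (gG ((4 * n + 3) / 4)) ((4 * n + 3) % 4) = _
  have e1 : (4 * n + 3) / 4 = n := by omega
  have e2 : (4 * n + 3) % 4 = 3 := by omega
  rw [e1, e2]
  rfl

theorem c_iota1 (m : ℕ) : Computable (iota m) :=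
  c_iota.comp (Computable.const m) Computable.id

theorem iota_symm (m : ℕ) : (iota m).symm = iota m := by
  ext p
  rfl

theorem c_iota_symm : Computable₂ (fun m p => (iota m).symm p) := by
  have h : (fun m p => (iota m).symm p) = fun m p => iota m p := by
    funext m p
    rw [iota_symm]
  rw [h]
  exact c_iota

/-- three computable involutions -/
def P_THREE : Prop :=
  ∃ ρ₁ ρ₂ β : ℕ → ℕ, (Computable ρ₁ ∧ Function.Involutive ρ₁) ∧
    (Computable ρ₂ ∧ Function.Involutive ρ₂) ∧ (Computable β ∧ Function.Involutive β) ∧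
    ∀ (r : Code) (z₀ : ℕ → Bool), Post r z₀ →
      ¬ ∃ (z : ℕ → Bool) (a₁ a₂ : Code) (B : Finset Code), ∀ X : ℕ → Bool, le z X →
        Red a₁ (ch (W r X)) (ch (W r (X ∘ ρ₁))) ∧ Red a₂ (ch (W r X)) (ch (W r (X ∘ ρ₂))) ∧
        ∃ b ∈ B, Red b (ch (W r X)) (ch (W r (X ∘ β)))

theorem t_THREE : P_THREE := by
  classical
  refine ⟨rho k1, rho k2, bet iota, ⟨c_rho c_k1, rho_inv k1_inv⟩, ⟨c_rho c_k2, rho_inv k2_inv⟩,
    ⟨bet_comp c_iota, bet_inv⟩, fun r z₀ hr => ?_⟩
  rintro ⟨z, a₁, a₂, B, hz⟩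
  obtain ⟨κ, hκ, hκ'⟩ := K7
  obtain ⟨a, ha⟩ : ∃ a, a = κ (a₂, a₁) := ⟨_, rfl⟩
  obtain ⟨a', ha'⟩ : ∃ a', a' = κ (a₁, a₂) := ⟨_, rfl⟩
  have hza : ∀ X, le z X → Red a (ch (W r X)) (ch (W r (X ∘ alp))) := by
    intro X hX
    have e : X ∘ alp = (X ∘ rho k2) ∘ rho k1 := by
      funext n
      simp only [Function.comp_apply]
      rw [alp_eq]
    have h1 := le_trans' hX (le_inv (c_rho c_k2) (rho_inv k2_inv) X)
    rw [e, ha]
    exact hκ' _ _ _ _ _ (hz _ hX).2.1 (hz _ h1).1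
  have hza' : ∀ X, le z X → Red a' (ch (W r X)) (ch (W r (X ∘ alp.symm))) := by
    intro X hX
    have e : X ∘ alp.symm = (X ∘ rho k1) ∘ rho k2 := by
      funext n
      simp only [Function.comp_apply]
      rw [alp_symm_eq]
    have h1 := le_trans' hX (le_inv (c_rho c_k1) (rho_inv k1_inv) X)
    rw [e, ha']
    exact hκ' _ _ _ _ _ (hz _ hX).1 (hz _ h1).2.1
  have hHat := t_HAT
  obtain ⟨-, H, hHc, hHh⟩ := hHat
  have hHc' : Computable (fun w => colS (H w)) := colS_comp.comp hHc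
  have hHh' : ∀ X t, colS (H (seg X t)) = seg (col (hat X)) t := by
    intro X t
    rw [hHh, colS_seg]
  have hle1 : ∀ X, le X (col (hat X)) := fun X => le_trans' (LOC_hat t_HAT X).1 (le_col _)
  obtain ⟨cH, hcH⟩ := OPR_red hHc' hHh'
  have hle2 : ∀ X, le (col (hat X)) X := fun X => (le_iff _ _).2 ⟨cH, hcH X⟩
  set Q : Finset ((Code × Code) × (Code × Code)) := (B ×ˢ B) ×ˢ (B ×ˢ B) with hQ
  obtain ⟨ζ, d, hd, hmain⟩ := ASM_main fin_CORE t_PUL Pm_ok r z₀ (fun X hX => (hr X hX).2.1)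
    hHc' hHh' hle1 Q.card
  obtain ⟨A, hA⟩ := GLB_join (fun a => if a = 0 then z₀ else if a = 1 then z else ζ)
  have q1 : le z₀ A := by simpa using hA 0
  have q2 : le z A := by simpa using hA 1
  have q3 : le ζ A := by simpa using hA 2
  have hAX : le A (jn 0 ζ A) := LOC_jn_right ζ A
  set X := jn 0 ζ A with hX
  have hz0 : le z₀ (col (hat X)) := le_trans' q1 (le_trans' hAX (hle1 X))
  have hzX : le z (hat X) := le_trans' q2 (le_trans' hAX (LOC_hat t_HAT X).1)
  obtain ⟨hp1, hp2, hp3⟩ := hr _ hz0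
  apply hp3
  refine le_trans' (LOC_jump (hle2 X)) ?_
  obtain ⟨idc, hidc⟩ : ∃ c : Code, ∀ Y : ℕ → Bool, Red c Y Y := by
    obtain ⟨c, hc⟩ := exists_fun (δ := fun p : ℕ × Str => p.2.getD p.1 false)
      (u := fun n => n + 1) (((Primrec.list_getD false).comp Primrec.snd Primrec.fst).to_comp)
      Computable.succ
    exact ⟨c, fun Y => (hc Y Y).2 fun n => (OPR_get Y (by omega)).symm⟩
  set F : ℕ → Code → Code := fun n b => κ (κ (pw κ idc a' n, b), pw κ idc a n) with hF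
  have hFc : Computable₂ F := by
    have h1 : Computable (fun p : ℕ × Code => pw κ idc a' p.1) :=
      (pw_comp hκ idc a').comp Computable.fst
    have h2 : Computable (fun p : ℕ × Code => pw κ idc a p.1) :=
      (pw_comp hκ idc a).comp Computable.fst
    exact hκ.comp ((hκ.comp (h1.pair Computable.snd)).pair h2)
  -- one involution
  have step : ∀ Z, le z Z → ∀ m, ∃ b ∈ B,
      Red (F m b) (ch (W r (col Z))) (ch (W r (col (Z ∘ iota m)))) := by
    intro Z hZ m
    have hzz : le z (col Z) := le_trans' hZ (le_col Z)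
    set X₀ := col Z with hX0
    have p1 : ∀ k, le z (X₀ ∘ alp.symm^[k]) := fun k => le_trans' hzz
      (TWO_perm_iter alp_symm_comp alp_comp (fun m => alp.apply_symm_apply m)
        (fun m => alp.symm_apply_apply m) X₀ k)
    have r1 : Red (pw κ idc a' m) (ch (W r X₀)) (ch (W r (X₀ ∘ alp.symm^[m]))) :=
      pw_red hκ' (fun X => ch (W r X)) X₀ alp.symm (hidc _) (fun k => hza' _ (p1 k)) m
    obtain ⟨b, hb, hb'⟩ := (hz _ (p1 m)).2.2
    set X₁ := (X₀ ∘ alp.symm^[m]) ∘ bet iota with hX1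
    have p2 : le z X₁ := le_trans' (p1 m)
      (LOC_perm (bet_comp c_iota) (bet_symm_comp c_iota_symm) _).1
    have p3 : ∀ k, le z (X₁ ∘ alp^[k]) := fun k => le_trans' p2
      (TWO_perm_iter alp_comp alp_symm_comp (fun m => alp.symm_apply_apply m)
        (fun m => alp.apply_symm_apply m) X₁ k)
    have r2 : Red (pw κ idc a m) (ch (W r X₁)) (ch (W r (X₁ ∘ alp^[m]))) :=
      pw_red hκ' (fun X => ch (W r X)) X₁ alp (hidc _) (fun k => hza _ (p3 k)) m
    refine ⟨b, hb, ?_⟩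
    have e1 : col (Z ∘ iota m) = X₁ ∘ alp^[m] := by
      rw [hX1, hX0, TWO_col_eq]
    rw [e1]
    exact hκ' _ _ _ _ _ (hκ' _ _ _ _ _ r1 hb') r2
  set G : ℕ → (Code × Code) × (Code × Code) → Code := fun n q =>
    κ (κ (κ (F (4 * n) q.1.1, F (4 * n + 1) q.1.2), F (4 * n + 2) q.2.1), F (4 * n + 3) q.2.2)
    with hG
  have hGc : Computable₂ G := by
    have hn : Computable (fun p : ℕ × ((Code × Code) × (Code × Code)) => 4 * p.1) :=
      Primrec.nat_mul.to_comp.comp (Computable.const 4) Computable.fst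
    have hn' : ∀ j : ℕ, Computable (fun p : ℕ × ((Code × Code) × (Code × Code)) =>
        4 * p.1 + j) := fun j => Primrec.nat_add.to_comp.comp hn (Computable.const j)
    have g0 : Computable (fun p : ℕ × ((Code × Code) × (Code × Code)) =>
        F (4 * p.1) p.2.1.1) :=
      hFc.comp hn (Computable.fst.comp (Computable.fst.comp Computable.snd))
    have g1 : Computable (fun p : ℕ × ((Code × Code) × (Code × Code)) =>
        F (4 * p.1 + 1) p.2.1.2) :=
      hFc.comp (hn' 1) (Computable.snd.comp (Computable.fst.comp Computable.snd))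
    have g2 : Computable (fun p : ℕ × ((Code × Code) × (Code × Code)) =>
        F (4 * p.1 + 2) p.2.2.1) :=
      hFc.comp (hn' 2) (Computable.fst.comp (Computable.snd.comp Computable.snd))
    have g3 : Computable (fun p : ℕ × ((Code × Code) × (Code × Code)) =>
        F (4 * p.1 + 3) p.2.2.2) :=
      hFc.comp (hn' 3) (Computable.snd.comp (Computable.snd.comp Computable.snd))
    exact hκ.comp ((hκ.comp ((hκ.comp (g0.pair g1)).pair g2)).pair g3)
  refine hmain X (jn_even ζ A) (ch (W r (col (hat X)))) (le_trans' (hle1 X) hp1)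
    (fun ee l => ∃ q ∈ Q.toList, l = G (d ee) q) ?_ ?_ ?_
  · refine REIn.of_re ?_
    refine Pool.Agent.Helper446.RE.ex_mem (p := fun (q : List ℕ × Code)
      (b : (Code × Code) × (Code × Code)) => q.2 = G (d q.1) b) (l := fun _ => Q.toList) ?_
      (Computable.const _)
    exact Pool.Agent.Helper446.RE.eq (Computable.snd.comp Computable.fst)
      (hGc.comp (hd.comp (Computable.fst.comp Computable.fst)) Computable.snd)
  · intro ee
    refine ⟨Q.image (G (d ee)), Finset.card_image_le, ?_⟩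
    rintro l ⟨q, hq, rfl⟩
    exact Finset.mem_image_of_mem _ (Finset.mem_toList.1 hq)
  · intro ee _ Y hY
    obtain ⟨n, hn⟩ : ∃ n, n = d ee := ⟨_, rfl⟩
    rw [← hn] at hY ⊢
    have e : hat Y = (((hat X ∘ iota (4 * n)) ∘ iota (4 * n + 1)) ∘ iota (4 * n + 2)) ∘
        iota (4 * n + 3) := by
      rw [iota_0, iota_1, iota_2, iota_3]
      funext p
      rw [hY p, Pm_apply]
      simp only [Function.comp_apply]
    have z1 := le_trans' hzX (le_inv (c_iota1 (4 * n)) (iota_inv _) (hat X))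
    have z2 := le_trans' z1 (le_inv (c_iota1 (4 * n + 1)) (iota_inv _) _)
    have z3 := le_trans' z2 (le_inv (c_iota1 (4 * n + 2)) (iota_inv _) _)
    obtain ⟨b0, hb0, s0⟩ := step _ hzX (4 * n)
    obtain ⟨b1, hb1, s1⟩ := step _ z1 (4 * n + 1)
    obtain ⟨b2, hb2, s2⟩ := step _ z2 (4 * n + 2)
    obtain ⟨b3, hb3, s3⟩ := step _ z3 (4 * n + 3)
    refine ⟨G n ((b0, b1), (b2, b3)), ⟨((b0, b1), (b2, b3)), Finset.mem_toList.2
      (Finset.mk_mem_product (Finset.mk_mem_product hb0 hb1) (Finset.mk_mem_product hb2 hb3)),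
      rfl⟩, ?_⟩
    rw [e]
    exact hκ' _ _ _ _ _ (hκ' _ _ _ _ _ (hκ' _ _ _ _ _ s0 s1) s2) s3

end Pool.Agent.U72.PIN
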